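import Pool.Agent.helper5.IH.Spec2

/-! # Row ih:HAM1 (MP_45d809_mp) -/

set_option autoImplicit false

namespace Pool.Agent.IH
open Finset CT SYM

section
variable {V : Type} [Fintype V] [DecidableEq V]

open Classical in
/-- the neighbours -/
noncomputable def HAM1_nb (F : SimpleGraph V) (v : V) : Finset V := univ.filter (fun w => F.Adj v w)

theorem HAM1_mem {F : SimpleGraph V} {v w : V} : w ∈ HAM1_nb F v ↔ F.Adj v w := by
  classical
  unfold HAM1_nb
  simp

theorem HAM1_card (F : SimpleGraph V) (v : V) : (HAM1_nb F v).card = Nat.card {w // F.Adj v w} := by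
  classical
  unfold HAM1_nb
  rw [Nat.card_eq_fintype_card, Fintype.card_subtype]

omit [Fintype V] [DecidableEq V] in
theorem HAM1_closed {F : SimpleGraph V} (hF : F.Connected) {T : Set V} (hT : ∀ a ∈ T, ∀ w, F.Adj a w → w ∈ T)
    {x : V} (hx : x ∈ T) (y : V) : y ∈ T := by
  obtain ⟨p⟩ := hF.preconnected x y
  induction p with
  | nil => exact hx
  | cons h p ih => exact ih (hT _ hx _ h)

theorem HAM1_count {H F : SimpleGraph V} {S N : Finset V} (hN : ∀ z ∈ S, ∀ v, H.Adj z v → v ∈ N) (hFH : F ≤ H)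
    (h2 : ∀ v, Nat.card {w // F.Adj v w} = 2) :
    ∑ v ∈ N, (HAM1_nb F v ∩ S).card = 2 * S.card := by
  classical
  have h3 : ∀ z ∈ S, (HAM1_nb F z ∩ N).card = 2 := by
    intro z hz
    rw [← h2 z, ← HAM1_card]
    congr 1
    rw [Finset.inter_eq_left]
    intro v hv
    exact hN z hz v (hFH (HAM1_mem.1 hv))
  have h4 : ∑ v ∈ N, (HAM1_nb F v ∩ S).card = ∑ z ∈ S, (HAM1_nb F z ∩ N).card := by
    have e1 : ∀ (A : Finset V) (v : V), (HAM1_nb F v ∩ A).card = ∑ z ∈ A, if F.Adj v z then 1 else 0 := by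
      intro A v
      rw [Finset.sum_boole, Nat.cast_id]
      congr 1
      ext w
      simp only [Finset.mem_inter, HAM1_mem, Finset.mem_filter]
      tauto
    simp only [e1]
    rw [Finset.sum_comm]
    refine Finset.sum_congr rfl (fun z _ => Finset.sum_congr rfl (fun v _ => ?_))
    simp only [F.adj_comm]
  rw [h4, Finset.sum_congr rfl h3, Finset.sum_const, smul_eq_mul, mul_comm]

theorem HAM1_le {F : SimpleGraph V} (h2 : ∀ v, Nat.card {w // F.Adj v w} = 2) (S : Finset V) (v : V) :
    (HAM1_nb F v ∩ S).card ≤ 2 := by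
  calc (HAM1_nb F v ∩ S).card ≤ (HAM1_nb F v).card := Finset.card_le_card Finset.inter_subset_left
    _ = 2 := by rw [HAM1_card, h2]

end

theorem HAM1 : HAM1_stmt := by
  intro V _ _ H S N hS hSN hN hcase
  unfold numHam
  rw [Nat.card_eq_zero]
  left
  constructor
  rintro ⟨F, hFH, hFc, h2⟩
  have hcnt := HAM1_count hN hFH h2
  have hle := fun v => HAM1_le h2 S v
  have h5 : ∑ v ∈ N, (HAM1_nb F v ∩ S).card ≤ N.card * 2 := by
    have := Finset.sum_le_card_nsmul N (fun v => (HAM1_nb F v ∩ S).card) 2 (fun v _ => hle v)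
    simpa using this
  rcases hcase with h6 | ⟨h6, v, hvS, hvN⟩
  · omega
  · have h7 : ∀ v ∈ N, (HAM1_nb F v ∩ S).card = 2 := by
      by_contra hcon
      push Not at hcon
      obtain ⟨w, hw, hne⟩ := hcon
      have h8 : (HAM1_nb F w ∩ S).card < 2 := lt_of_le_of_ne (hle w) hne
      have h9 : ∑ v ∈ N, (HAM1_nb F v ∩ S).card < ∑ v ∈ N, 2 :=
        Finset.sum_lt_sum (fun v _ => hle v) ⟨w, hw, h8⟩
      rw [Finset.sum_const, smul_eq_mul] at h9
      omega
    have hcl : ∀ a ∈ ((S ∪ N : Finset V) : Set V), ∀ w, F.Adj a w → w ∈ ((S ∪ N : Finset V) : Set V) := by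
      intro a ha w haw
      rw [Finset.mem_coe, Finset.mem_union] at ha ⊢
      rcases ha with ha | ha
      · right
        exact hN a ha w (hFH haw)
      · left
        have h8 := h7 a ha
        have h9 : HAM1_nb F a ∩ S = HAM1_nb F a := by
          apply Finset.eq_of_subset_of_card_le Finset.inter_subset_left
          rw [h8, HAM1_card, h2]
        have h10 : w ∈ HAM1_nb F a := HAM1_mem.2 haw
        rw [← h9] at h10
        exact (Finset.mem_inter.1 h10).2
    obtain ⟨z, hz⟩ := hS
    have h8 := HAM1_closed hFc hcl (x := z) (by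
      rw [Finset.mem_coe, Finset.mem_union]
      exact Or.inl hz) v
    rw [Finset.mem_coe, Finset.mem_union] at h8
    rcases h8 with h8 | h8
    · exact hvS h8
    · exact hvN h8

end Pool.Agent.IH
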