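import Pool.Agent.helper1.IH.HAM1

/-! # Row ih:HAM2 (MP_45d809_mp) -/

set_option autoImplicit false

namespace Pool.Agent.IH
open Finset CT SYM

theorem HAM2_even {X : Type} [Finite X] (f : X → X) (h1 : ∀ x, f (f x) = x) (h2 : ∀ x, f x ≠ x) : Even (Nat.card X) := by
  classical
  have := Fintype.ofFinite X
  rw [Nat.card_eq_fintype_card, ← Finset.card_univ]
  have h3 : ((Finset.univ : Finset X).card : ZMod 2) = 0 := by
    have h4 : ∑ _x ∈ (Finset.univ : Finset X), (1 : ZMod 2) = 0 := by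
      refine Finset.sum_involution (fun x _ => f x) ?_ ?_ ?_ ?_
      · intro x _
        decide
      · intro x _ _
        exact h2 x
      · intro x _
        exact Finset.mem_univ _
      · intro x _
        exact h1 x
    simpa using h4
  exact (ZMod.natCast_eq_zero_iff_even).1 h3

section
variable {V : Type} [Fintype V] [DecidableEq V]

/-- the image under the transposition of `x` and `y` -/
def HAM2_sw (F : SimpleGraph V) (x y : V) : SimpleGraph V := F.comap (Equiv.swap x y)

omit [Fintype V] in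
theorem HAM2_sw_adj {F : SimpleGraph V} {x y a b : V} :
    (HAM2_sw F x y).Adj a b ↔ F.Adj (Equiv.swap x y a) (Equiv.swap x y b) := Iff.rfl

omit [Fintype V] in
theorem HAM2_sw_sw (F : SimpleGraph V) (x y : V) : HAM2_sw (HAM2_sw F x y) x y = F := by
  ext a b
  rw [HAM2_sw_adj, HAM2_sw_adj, Equiv.swap_apply_self, Equiv.swap_apply_self]

omit [Fintype V] in
theorem HAM2_sw_conn {F : SimpleGraph V} (hF : F.Connected) (x y : V) : (HAM2_sw F x y).Connected :=
  (SimpleGraph.Iso.comap (Equiv.swap x y) F).connected_iff.2 hF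

omit [Fintype V] in
theorem HAM2_sw_deg {F : SimpleGraph V} (h2 : ∀ v, Nat.card {w // F.Adj v w} = 2) (x y v : V) :
    Nat.card {w // (HAM2_sw F x y).Adj v w} = 2 := by
  rw [← h2 (Equiv.swap x y v)]
  exact Nat.card_congr ((Equiv.swap x y).subtypeEquiv (fun w => Iff.rfl))

open Classical in
/-- the vertices of `N` with a neighbour outside `S` -/
noncomputable def HAM2_X (F : SimpleGraph V) (S N : Finset V) : Finset V :=
  N.filter (fun v => ∃ w, F.Adj v w ∧ w ∉ S)

theorem HAM2_mem {F : SimpleGraph V} {S N : Finset V} {v : V} :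
    v ∈ HAM2_X F S N ↔ v ∈ N ∧ ∃ w, F.Adj v w ∧ w ∉ S := by
  classical
  unfold HAM2_X
  rw [Finset.mem_filter]

theorem HAM2_card {H F : SimpleGraph V} {S N : Finset V} (hN : ∀ z ∈ S, ∀ v, H.Adj z v → v ∈ N) (hFH : F ≤ H)
    (h2 : ∀ v, Nat.card {w // F.Adj v w} = 2) (hc : N.card = S.card + 1) : (HAM2_X F S N).card ≤ 2 := by
  classical
  have hcnt := HAM1_count hN hFH h2
  have h3 : ∀ v ∈ N, (HAM1_nb F v ∩ S).card + (if v ∈ HAM2_X F S N then 1 else 0) ≤ 2 := by
    intro v hv
    split_ifs with h4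
    · obtain ⟨_, w, hw, hwS⟩ := HAM2_mem.1 h4
      have h5 : (HAM1_nb F v ∩ S).card < (HAM1_nb F v).card := by
        apply Finset.card_lt_card
        rw [Finset.ssubset_iff_of_subset Finset.inter_subset_left]
        exact ⟨w, HAM1_mem.2 hw, fun h => hwS (Finset.mem_inter.1 h).2⟩
      rw [HAM1_card, h2] at h5
      omega
    · exact HAM1_le h2 S v
  have h4 := Finset.sum_le_card_nsmul N _ 2 h3
  rw [Finset.sum_add_distrib, hcnt, Finset.sum_boole, smul_eq_mul, Nat.cast_id] at h4
  have h5 : (N.filter (fun v => v ∈ HAM2_X F S N)) = HAM2_X F S N := by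
    ext v
    rw [Finset.mem_filter]
    constructor
    · exact fun h => h.2
    · exact fun h => ⟨(HAM2_mem.1 h).1, h⟩
  rw [h5] at h4
  omega

omit [Fintype V] in
theorem HAM2_two {X : Finset V} (hX : X.card ≤ 2) (x0 : V) : ∃ u u' : V, ∀ v ∈ X, v = u ∨ v = u' := by
  rcases Nat.lt_or_ge X.card 2 with h1 | h1
  · have h2 : X.card ≤ 1 := by omega
    rcases X.eq_empty_or_nonempty with h3 | ⟨w, hw⟩
    · exact ⟨x0, x0, fun v hv => by rw [h3] at hv; exact absurd hv (Finset.notMem_empty v)⟩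
    · exact ⟨w, w, fun v hv => Or.inl (Finset.card_le_one.1 h2 v hv w hw)⟩
  · obtain ⟨u, u', _, h3⟩ := Finset.card_eq_two.1 (le_antisymm hX h1)
    exact ⟨u, u', fun v hv => by rw [h3] at hv; simpa using hv⟩

/-- everything about the transposition -/
theorem HAM2_step {H F : SimpleGraph V} {S N : Finset V} (h5 : 5 ≤ Fintype.card V) (hSN : Disjoint S N)
    (hFH : F ≤ H) (hFc : F.Connected) (h2 : ∀ v, Nat.card {w // F.Adj v w} = 2) {x y : V} (hxy : x ≠ y)
    (hx : x ∉ HAM2_X F S N) (hy : y ∉ HAM2_X F S N) (hyN : y ∈ N)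
    (hcase : (x ∈ N ∧ ∀ z ∈ S, (H.Adj z x ↔ H.Adj z y)) ∨ (x ∈ S ∧ ∀ z ∈ S, (H.Adj z y ↔ z = x))) :
    HAM2_sw F x y ≤ H ∧ HAM2_X (HAM2_sw F x y) S N = HAM2_X F S N ∧ HAM2_sw F x y ≠ F := by
  classical
  have hyS : ∀ w, F.Adj y w → w ∈ S := by
    intro w hw
    by_contra hcon
    exact hy (HAM2_mem.2 ⟨hyN, w, hw, hcon⟩)
  have hcase1 : x ∈ N ∧ ∀ z ∈ S, (H.Adj z x ↔ H.Adj z y) := by
    rcases hcase with h | ⟨_, h⟩
    · exact h
    · exfalso
      have h6 : HAM1_nb F y ⊆ {x} := by
        intro w hw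
        have hw' := HAM1_mem.1 hw
        rw [Finset.mem_singleton]
        exact (h w (hyS w hw')).1 (hFH hw'.symm)
      have h7 := Finset.card_le_card h6
      rw [HAM1_card, h2, Finset.card_singleton] at h7
      omega
  obtain ⟨hxN, htw⟩ := hcase1
  have hxS : ∀ w, F.Adj x w → w ∈ S := by
    intro w hw
    by_contra hcon
    exact hx (HAM2_mem.2 ⟨hxN, w, hw, hcon⟩)
  have hxnS : x ∉ S := fun h => Finset.disjoint_left.1 hSN h hxN
  have hynS : y ∉ S := fun h => Finset.disjoint_left.1 hSN h hyN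
  have hneS : ∀ w ∈ S, Equiv.swap x y w = w := by
    intro w hw
    apply Equiv.swap_apply_of_ne_of_ne
    · rintro rfl
      exact hxnS hw
    · rintro rfl
      exact hynS hw
  have hmemS : ∀ w, Equiv.swap x y w ∈ S ↔ w ∈ S := by
    intro w
    constructor
    · intro h
      have h8 := hneS _ h
      rw [Equiv.swap_apply_self] at h8
      rw [h8]
      exact h
    · intro h
      rw [hneS w h]
      exact h
  -- the key: adjacency of `x` and `y`
  have key1 : ∀ b, F.Adj y (Equiv.swap x y b) → H.Adj x b := by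
    intro b hb
    have hbS := (hmemS b).1 (hyS _ hb)
    rw [hneS b hbS] at hb
    exact ((htw b hbS).2 (hFH hb.symm)).symm
  have key2 : ∀ b, F.Adj x (Equiv.swap x y b) → H.Adj y b := by
    intro b hb
    have hbS := (hmemS b).1 (hxS _ hb)
    rw [hneS b hbS] at hb
    exact ((htw b hbS).1 (hFH hb.symm)).symm
  refine ⟨?_, ?_, ?_⟩
  · intro a b hab
    rw [HAM2_sw_adj] at hab
    by_cases ha1 : a = x
    · rw [ha1, Equiv.swap_apply_left] at hab
      rw [ha1]
      exact key1 b hab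
    by_cases ha2 : a = y
    · rw [ha2, Equiv.swap_apply_right] at hab
      rw [ha2]
      exact key2 b hab
    by_cases hb1 : b = x
    · rw [hb1, Equiv.swap_apply_left] at hab
      rw [hb1]
      exact (key1 a hab.symm).symm
    by_cases hb2 : b = y
    · rw [hb2, Equiv.swap_apply_right] at hab
      rw [hb2]
      exact (key2 a hab.symm).symm
    rw [Equiv.swap_apply_of_ne_of_ne ha1 ha2, Equiv.swap_apply_of_ne_of_ne hb1 hb2] at hab
    exact hFH hab
  · ext v
    rw [HAM2_mem, HAM2_mem]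
    have h8 : (∃ w, (HAM2_sw F x y).Adj v w ∧ w ∉ S) ↔ ∃ w, F.Adj (Equiv.swap x y v) w ∧ w ∉ S := by
      constructor
      · rintro ⟨w, hw, hwS⟩
        exact ⟨Equiv.swap x y w, hw, fun h => hwS ((hmemS w).1 h)⟩
      · rintro ⟨w, hw, hwS⟩
        refine ⟨Equiv.swap x y w, ?_, fun h => hwS ((hmemS w).1 h)⟩
        rw [HAM2_sw_adj, Equiv.swap_apply_self]
        exact hw
    rw [h8]
    by_cases hv1 : v = x
    · rw [hv1, Equiv.swap_apply_left]
      constructor
      · rintro ⟨_, w, hw, hwS⟩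
        exact absurd (hyS w hw) hwS
      · rintro ⟨_, w, hw, hwS⟩
        exact absurd (hxS w hw) hwS
    by_cases hv2 : v = y
    · rw [hv2, Equiv.swap_apply_right]
      constructor
      · rintro ⟨_, w, hw, hwS⟩
        exact absurd (hxS w hw) hwS
      · rintro ⟨_, w, hw, hwS⟩
        exact absurd (hyS w hw) hwS
    rw [Equiv.swap_apply_of_ne_of_ne hv1 hv2]
  · intro heq
    -- the set of `x`, `y` and the neighbours of `x`
    have hxw : ∀ w, F.Adj y w → F.Adj x w := by
      intro w hw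
      have hwS := hyS w hw
      rw [← heq, HAM2_sw_adj, Equiv.swap_apply_left, hneS w hwS]
      exact hw
    have hyw : ∀ w, F.Adj x w → F.Adj y w := by
      intro w hw
      have hwS := hxS w hw
      rw [← heq, HAM2_sw_adj, Equiv.swap_apply_right, hneS w hwS]
      exact hw
    set T : Finset V := {x, y} ∪ HAM1_nb F x with hT
    have hcl : ∀ a ∈ (T : Set V), ∀ w, F.Adj a w → w ∈ (T : Set V) := by
      intro a ha w haw
      rw [Finset.mem_coe, hT, Finset.mem_union, Finset.mem_insert, Finset.mem_singleton, HAM1_mem] at ha ⊢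
      rcases ha with (rfl | rfl) | ha
      · exact Or.inr haw
      · exact Or.inr (hxw w haw)
      · left
        have h9 : ({x, y} : Finset V) ⊆ HAM1_nb F a := by
          intro u hu
          rw [Finset.mem_insert, Finset.mem_singleton] at hu
          rw [HAM1_mem]
          rcases hu with rfl | rfl
          · exact ha.symm
          · exact (hyw a ha).symm
        have h10 : ({x, y} : Finset V) = HAM1_nb F a := by
          apply Finset.eq_of_subset_of_card_le h9
          rw [HAM1_card, h2, Finset.card_pair hxy]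
        have h11 : w ∈ HAM1_nb F a := HAM1_mem.2 haw
        rw [← h10, Finset.mem_insert, Finset.mem_singleton] at h11
        exact h11
    have hall : ∀ v, v ∈ T := by
      intro v
      have := HAM1_closed hFc hcl (x := x) (by
        rw [Finset.mem_coe, hT, Finset.mem_union, Finset.mem_insert]
        exact Or.inl (Or.inl rfl)) v
      exact this
    have h12 : Fintype.card V ≤ T.card := by
      rw [← Finset.card_univ]
      exact Finset.card_le_card (fun v _ => hall v)
    have h13 : T.card ≤ 2 + 2 := by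
      rw [hT]
      refine le_trans (Finset.card_union_le _ _) ?_
      rw [Finset.card_pair hxy, HAM1_card, h2]
    omega

end

theorem HAM2 : HAM2_stmt := by
  classical
  intro V _ _ H S N h5 hSN hN hc hpair
  have hne : Nonempty V := Fintype.card_pos_iff.1 (by omega)
  obtain ⟨x0⟩ := hne
  have hch : ∀ X : Finset V, ∃ p : V × V, X.card ≤ 2 → p.1 ≠ p.2 ∧ p.1 ∉ X ∧ p.2 ∉ X ∧ p.2 ∈ N ∧
      ((p.1 ∈ N ∧ ∀ z ∈ S, (H.Adj z p.1 ↔ H.Adj z p.2)) ∨ (p.1 ∈ S ∧ ∀ z ∈ S, (H.Adj z p.2 ↔ z = p.1))) := by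
    intro X
    by_cases hX : X.card ≤ 2
    · obtain ⟨u, u', hu⟩ := HAM2_two hX x0
      obtain ⟨x, y, h1, h2, h3, h4, h6, h7, h8⟩ := hpair u u'
      refine ⟨(x, y), fun _ => ⟨h1, ?_, ?_, h7, h8⟩⟩
      · intro hx
        rcases hu x hx with h9 | h9
        · exact h2 h9
        · exact h3 h9
      · intro hy
        rcases hu y hy with h9 | h9
        · exact h4 h9
        · exact h6 h9
    · exact ⟨(x0, x0), fun h => absurd h hX⟩
  choose P hP using hch
  have hstep : ∀ F : SimpleGraph V, (F ≤ H ∧ F.Connected ∧ ∀ v, Nat.card {w // F.Adj v w} = 2) →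
      HAM2_sw F (P (HAM2_X F S N)).1 (P (HAM2_X F S N)).2 ≤ H ∧
      HAM2_X (HAM2_sw F (P (HAM2_X F S N)).1 (P (HAM2_X F S N)).2) S N = HAM2_X F S N ∧
      HAM2_sw F (P (HAM2_X F S N)).1 (P (HAM2_X F S N)).2 ≠ F := by
    rintro F ⟨hFH, hFc, h2⟩
    obtain ⟨p1, p2, p3, p4, p5⟩ := hP (HAM2_X F S N) (HAM2_card hN hFH h2 hc)
    exact HAM2_step h5 hSN hFH hFc h2 p1 p2 p3 p4 p5
  unfold numHam
  refine HAM2_even (fun F => ⟨HAM2_sw F.1 (P (HAM2_X F.1 S N)).1 (P (HAM2_X F.1 S N)).2,
    (hstep F.1 F.2).1, HAM2_sw_conn F.2.2.1 _ _, HAM2_sw_deg F.2.2.2 _ _⟩) ?_ ?_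
  · intro F
    apply Subtype.ext
    simp only
    rw [(hstep F.1 F.2).2.1, HAM2_sw_sw]
  · intro F hF
    exact (hstep F.1 F.2).2.2 (congrArg Subtype.val hF)

end Pool.Agent.IH
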