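import Pool.Agent.helper5.IH.Spec2

/-! # Row ih:PR1 (MP_45d809_mp) -/

set_option autoImplicit false

namespace Pool.Agent.IH
open Finset CT SYM

theorem PR1 : PR1_stmt := by
  classical
  intro V _ _ G hG h6 u w huw
  set X : Finset V := univ.filter (fun z => G.Adj u z ∧ G.Adj w z) with hX
  have hXc : Nat.card {z // G.Adj u z ∧ G.Adj w z} = X.card := by
    rw [Nat.card_eq_fintype_card, Fintype.card_subtype]
  have hu4 : (univ.filter (fun z => G.Adj u z)).card = 4 := by
    rw [← hG.regular u, Nat.card_eq_fintype_card, Fintype.card_subtype]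
  have hw4 : (univ.filter (fun z => G.Adj w z)).card = 4 := by
    rw [← hG.regular w, Nat.card_eq_fintype_card, Fintype.card_subtype]
  have hXsub : insert w X ⊆ univ.filter (fun z => G.Adj u z) := by
    intro z hz
    rw [Finset.mem_insert] at hz
    rw [Finset.mem_filter]
    rcases hz with rfl | hz
    · exact ⟨Finset.mem_univ _, huw⟩
    · exact ⟨Finset.mem_univ _, (Finset.mem_filter.1 hz).2.1⟩
  have hwX : w ∉ X := by
    intro h
    exact G.loopless.irrefl w (Finset.mem_filter.1 h).2.2
  have huX : u ∉ X := by
    intro h
    exact G.loopless.irrefl u (Finset.mem_filter.1 h).2.1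
  have hXsub' : insert u X ⊆ univ.filter (fun z => G.Adj w z) := by
    intro z hz
    rw [Finset.mem_insert] at hz
    rw [Finset.mem_filter]
    rcases hz with rfl | hz
    · exact ⟨Finset.mem_univ _, huw.symm⟩
    · exact ⟨Finset.mem_univ _, (Finset.mem_filter.1 hz).2.2⟩
  have h3 : X.card ≤ 3 := by
    have := Finset.card_le_card hXsub
    rw [Finset.card_insert_of_notMem hwX, hu4] at this
    omega
  have h2 : X.card ≠ 2 := by
    rw [← hXc]
    exact hG.triangles u w huw
  rw [hXc]
  by_contra hcon
  have h33 : X.card = 3 := by omega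
  -- neighbours of `u` and `w`
  have hNu : insert w X = univ.filter (fun z => G.Adj u z) := by
    apply Finset.eq_of_subset_of_card_le hXsub
    rw [Finset.card_insert_of_notMem hwX, hu4, h33]
  have hNw : insert u X = univ.filter (fun z => G.Adj w z) := by
    apply Finset.eq_of_subset_of_card_le hXsub'
    rw [Finset.card_insert_of_notMem huX, hw4, h33]
  -- a vertex outside
  have hlt : (insert u (insert w X)).card < Fintype.card V := by
    have h7 : (insert u (insert w X)).card ≤ 5 := by
      refine le_trans (Finset.card_insert_le _ _) ?_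
      rw [Finset.card_insert_of_notMem hwX, h33]
    omega
  obtain ⟨y, hy⟩ : ∃ y, y ∉ insert u (insert w X) := by
    by_contra hcon2
    push Not at hcon2
    have h8 : (insert u (insert w X)) = univ := Finset.eq_univ_iff_forall.2 hcon2
    rw [h8, Finset.card_univ] at hlt
    omega
  rw [Finset.mem_insert, Finset.mem_insert] at hy
  push Not at hy
  obtain ⟨hyu, hyw, hyX⟩ := hy
  have hconn := hG.connectivity X h3
  obtain ⟨p⟩ := hconn.preconnected ⟨u, fun h => huX (Finset.mem_coe.1 h)⟩ ⟨y, fun h => hyX (Finset.mem_coe.1 h)⟩
  have key : ∀ (a b : ((X : Set V)ᶜ : Set V)) (p : (G.induce ((X : Set V)ᶜ)).Walk a b),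
      ((a : V) = u ∨ (a : V) = w) → ((b : V) = u ∨ (b : V) = w) := by
    intro a b p
    induction p with
    | nil => exact fun h => h
    | @cons a b' c hab p ih =>
      intro ha
      apply ih
      have hab' : G.Adj (a : V) (b' : V) := hab
      have hbX : (b' : V) ∉ X := fun h => b'.2 (Finset.mem_coe.2 h)
      rcases ha with ha | ha
      · rw [ha] at hab'
        have : (b' : V) ∈ insert w X := by
          rw [hNu, Finset.mem_filter]
          exact ⟨Finset.mem_univ _, hab'⟩
        rw [Finset.mem_insert] at this
        exact Or.inr (this.resolve_right hbX)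
      · rw [ha] at hab'
        have : (b' : V) ∈ insert u X := by
          rw [hNw, Finset.mem_filter]
          exact ⟨Finset.mem_univ _, hab'⟩
        rw [Finset.mem_insert] at this
        exact Or.inl (this.resolve_right hbX)
  rcases key _ _ p (Or.inl rfl) with h9 | h9
  · exact hyu h9
  · exact hyw h9

end Pool.Agent.IH
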