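import Pool.Agent.helper5.IH.Spec2

/-! # Row ih:TR3 (MP_45d809_mp) -/

set_option autoImplicit false

namespace Pool.Agent.IH
open Finset CT SYM

theorem TR3_inter {V : Type} [Fintype V] [DecidableEq V] (G : SimpleGraph V)
    (h : ∀ u w, G.Adj u w → Nat.card {z // G.Adj u z ∧ G.Adj w z} ≤ 1) {t t' : Finset V}
    (ht : G.IsNClique 3 t) (ht' : G.IsNClique 3 t') (hne : t ≠ t') : (t ∩ t').card ≤ 1 := by
  classical
  by_contra hcon
  push Not at hcon
  obtain ⟨u, w, hu, hw, huw⟩ := Finset.one_lt_card_iff.1 hcon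
  rw [Finset.mem_inter] at hu hw
  have hadj : G.Adj u w := ht.isClique (Finset.mem_coe.2 hu.1) (Finset.mem_coe.2 hw.1) huw
  have hc := h u w hadj
  rw [Nat.card_eq_fintype_card, Fintype.card_subtype] at hc
  -- third vertices
  have third : ∀ s : Finset V, G.IsNClique 3 s → u ∈ s → w ∈ s → ∃ z, s = {u, w, z} ∧ G.Adj u z ∧ G.Adj w z := by
    intro s hs hus hws
    have h1 : ((s.erase u).erase w).card = 1 := by
      rw [Finset.card_erase_of_mem (Finset.mem_erase.2 ⟨huw.symm, hws⟩), Finset.card_erase_of_mem hus, hs.card_eq]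
    obtain ⟨z, hz⟩ := Finset.card_eq_one.1 h1
    have hz1 : z ∈ (s.erase u).erase w := by rw [hz]; exact Finset.mem_singleton_self z
    rw [Finset.mem_erase, Finset.mem_erase] at hz1
    obtain ⟨hzw, hzu, hzs⟩ := hz1
    refine ⟨z, ?_, hs.isClique (Finset.mem_coe.2 hus) (Finset.mem_coe.2 hzs) hzu.symm,
      hs.isClique (Finset.mem_coe.2 hws) (Finset.mem_coe.2 hzs) hzw.symm⟩
    rw [← Finset.insert_erase hus, ← Finset.insert_erase (Finset.mem_erase.2 ⟨huw.symm, hws⟩ : w ∈ s.erase u), hz]
  obtain ⟨z, hz, hz1, hz2⟩ := third t ht hu.1 hw.1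
  obtain ⟨z', hz', hz1', hz2'⟩ := third t' ht' hu.2 hw.2
  have hzz : z = z' := by
    apply Finset.card_le_one.1 hc
    · rw [Finset.mem_filter]
      exact ⟨Finset.mem_univ _, hz1, hz2⟩
    · rw [Finset.mem_filter]
      exact ⟨Finset.mem_univ _, hz1', hz2'⟩
  apply hne
  rw [hz, hz', hzz]

theorem TR3 (hTR2 : TR2_stmt) (hPR1 : PR1_stmt) : TR3_stmt := by
  classical
  intro V _ _ G hG h7 hc2 t ht
  by_contra hcon
  push Not at hcon
  rw [Nat.card_eq_fintype_card, Fintype.card_subtype] at hcon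
  obtain ⟨A, hA, hA3⟩ := Finset.exists_subset_card_eq (show 3 ≤ _ from hcon)
  obtain ⟨t1, t2, t3, h12, h13, h23, hAe⟩ := Finset.card_eq_three.1 hA3
  have hmem : ∀ s ∈ A, G.IsNClique 3 s ∧ s ≠ t ∧ (t ∩ s).Nonempty := by
    intro s hs
    exact (Finset.mem_filter.1 (hA hs)).2
  have m1 := hmem t1 (by rw [hAe]; simp)
  have m2 := hmem t2 (by rw [hAe]; simp)
  have m3 := hmem t3 (by rw [hAe]; simp)
  have hpr := hPR1 V G hG (by omega)
  set T : Fin 4 → Finset V := ![t, t1, t2, t3] with hT
  obtain ⟨v, hv⟩ := hc2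
  apply hv
  refine hTR2 V G T hG.regular h7 ?_ ?_ ?_ v
  · intro i
    fin_cases i
    · exact ht
    · exact m1.1
    · exact m2.1
    · exact m3.1
  · intro i j hij
    have hcl : ∀ i, G.IsNClique 3 (T i) := by
      intro i
      fin_cases i
      · exact ht
      · exact m1.1
      · exact m2.1
      · exact m3.1
    apply TR3_inter G hpr (hcl i) (hcl j)
    have hinj : ∀ i j : Fin 4, i ≠ j → T i ≠ T j := by
      intro i j hij
      fin_cases i <;> fin_cases j
      all_goals first
        | exact absurd rfl hij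
        | exact m1.2.1.symm
        | exact m2.2.1.symm
        | exact m3.2.1.symm
        | exact m1.2.1
        | exact m2.2.1
        | exact m3.2.1
        | exact h12
        | exact h13
        | exact h23
        | exact h12.symm
        | exact h13.symm
        | exact h23.symm
    exact hinj i j hij
  · intro i hi
    fin_cases i
    · exact absurd rfl hi
    · exact m1.2.2
    · exact m2.2.2
    · exact m3.2.2

end Pool.Agent.IH
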